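import Pool.Agent.Lib.MP_e3aa0a_gt.FVR.NC21
import Pool.Agent.Lib.MP_e3aa0a_gt.FVL.AsmF32

/-!
Project FVR (MP_e3aa0a_gt), row STAR (helper21): the property `Star` from the additivity along the
rows, and the output for Theorem T.
-/

set_option autoImplicit false

namespace Pool.Agent.Lib.MP_e3aa0a_gt.FVR

open Pool.Agent.Lib.FVol
open Pool.Agent.Lib.MP_e3aa0a_gt.FVL (RowVal32)

variable {A V H M : Type*} [Group H] [AddCommGroup M] [LinearOrder M] {L : H → M}
  {e : ℝ × ℝ →+ M} {d : Dat A V H} {l : A → ℝ}

/-- `L` is additive along the rows -/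
def RowAdd (L : H → M) (e : ℝ × ℝ →+ M) (d : Dat A V H) (l : A → ℝ) : Prop :=
  ∀ σ P W Q, d.row σ = P ++ (W ++ Q) → W ≠ [] → L (wpr d.lab W) = e (wl d.lam W, wl l W)

theorem same_row (hpos : ∀ a, 0 < d.lam a) (hadd : RowAdd L e d l) {σ : Bool}
    {P Q P' Q' : List (A × Bool)} (h1 : d.row σ = P ++ Q) (h2 : d.row σ = P' ++ Q')
    (hlt : wl d.lam P < wl d.lam P') :
    L ((wpr d.lab P)⁻¹ * wpr d.lab P') = e (wl d.lam P' - wl d.lam P, wl l P' - wl l P) := by
  have h3 := h1.symm.trans h2
  rcases List.append_eq_append_iff.1 h3 with ⟨R, e1, e2⟩ | ⟨R, e1, e2⟩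
  · subst e1
    have hR : R ≠ [] := by
      rintro rfl
      rw [List.append_nil] at hlt
      exact lt_irrefl _ hlt
    have := hadd σ P R Q' (by rw [h1, e2]) hR
    rw [wpr_append, inv_mul_cancel_left, this]
    simp
  · exfalso
    rw [e1, wl_append] at hlt
    linarith [wl_nonneg hpos R]

/-- **`Star` from the additivity along the rows** -/
theorem star_rowwise (he : Emb e) (hU : UltM L) (hpos : ∀ a, 0 < d.lam a)
    (hrel : wpr d.lab (d.row true) = wpr d.lab (d.row false)) (hbal : Bal d.lam d)
    (hball : Bal l d) (hadd : RowAdd L e d l) : Star L e d l := by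
  intro σ σ' P Q P' Q' h1 h2 hlt
  by_cases hσ : σ = σ'
  · subst hσ
    exact same_row hpos hadd h1 h2 hlt
  · have hr : wpr d.lab (d.row σ) = wpr d.lab (d.row σ') := by
      cases σ <;> cases σ' <;> simp_all
    have hb : wl d.lam (d.row σ) = wl d.lam (d.row σ') := by
      have : wl d.lam (d.row true) = wl d.lam (d.row false) := hbal
      cases σ <;> cases σ' <;> simp_all
    have hbl : wl l (d.row σ) = wl l (d.row σ') := by
      have : wl l (d.row true) = wl l (d.row false) := hball
      cases σ <;> cases σ' <;> simp_all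
    by_cases hP : P = []
    · subst hP
      have := same_row hpos hadd (P := []) (Q := d.row σ') rfl h2 hlt
      exact this
    · by_cases hQ' : Q' = []
      · subst hQ'
        rw [List.append_nil] at h2
        rw [← h2, ← hr, ← hb, ← hbl]
        refine same_row hpos hadd h1 (List.append_nil _).symm ?_
        rw [hb, h2]
        exact hlt
      · have hP' : P' ≠ [] := by
          rintro rfl
          rw [wl_nil] at hlt
          linarith [wl_nonneg hpos P]
        have hQ : Q ≠ [] := by
          rintro rfl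
          rw [List.append_nil] at h1
          rw [← h1, hb, h2, wl_append] at hlt
          linarith [wl_nonneg hpos Q']
        have a1 : L (wpr d.lab P) = e (wl d.lam P, wl l P) := hadd σ [] P Q (by rw [h1]; rfl) hP
        have a2 : L (wpr d.lab P') = e (wl d.lam P', wl l P') :=
          hadd σ' [] P' Q' (by rw [h2]; rfl) hP'
        have a3 : L (wpr d.lab Q) = e (wl d.lam Q, wl l Q) :=
          hadd σ P Q [] (by rw [h1]; simp) hQ
        have a4 : L (wpr d.lab Q') = e (wl d.lam Q', wl l Q') :=
          hadd σ' P' Q' [] (by rw [h2]; simp) hQ'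
        have a5 : L (wpr d.lab (d.row σ)) = e (wl d.lam (d.row σ), wl l (d.row σ)) :=
          hadd σ [] (d.row σ) [] (by simp) (by rw [h1]; simp [hP])
        have key := hU.dd 1 (wpr d.lab P) (wpr d.lab P') (wpr d.lab (d.row σ))
        have d1 : dd L 1 (wpr d.lab P) = e (wl d.lam P, wl l P) := by
          rw [dd, inv_one, one_mul, a1]
        have d2 : dd L 1 (wpr d.lab P') = e (wl d.lam P', wl l P') := by
          rw [dd, inv_one, one_mul, a2]
        have d3 : dd L 1 (wpr d.lab (d.row σ)) = e (wl d.lam (d.row σ), wl l (d.row σ)) := by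
          rw [dd, inv_one, one_mul, a5]
        have d4 : dd L (wpr d.lab P) (wpr d.lab (d.row σ)) = e (wl d.lam Q, wl l Q) := by
          rw [dd, h1, wpr_append, inv_mul_cancel_left, a3]
        have d5 : dd L (wpr d.lab P') (wpr d.lab (d.row σ)) = e (wl d.lam Q', wl l Q') := by
          rw [hr, dd, h2, wpr_append, inv_mul_cancel_left, a4]
        rw [d1, d2, d3, d4, d5] at key
        have b1 : wl d.lam (d.row σ) = wl d.lam P + wl d.lam Q := by rw [h1, wl_append]
        have b2 : wl d.lam (d.row σ) = wl d.lam P' + wl d.lam Q' := by rw [hb, h2, wl_append]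
        have c1 : wl l (d.row σ) = wl l P + wl l Q := by rw [h1, wl_append]
        have c2 : wl l (d.row σ) = wl l P' + wl l Q' := by rw [hbl, h2, wl_append]
        have h9 := key (he.ne_zero (wl_pos hpos hP)) (he.ne_zero (wl_pos hpos hQ'))
          (he.ne_zero (wl_pos hpos hP')) (he.ne_zero (wl_pos hpos hQ)) (by
            rw [← map_add, ← map_add]
            exact he _ _ (by simp only [Prod.fst_add]; linarith))
        show dd L (wpr d.lab P) (wpr d.lab P') = _
        have h10 : dd L (wpr d.lab P) (wpr d.lab P') = e ((wl d.lam P', wl l P') +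
            (wl d.lam Q, wl l Q) - (wl d.lam (d.row σ), wl l (d.row σ))) := by
          rw [map_sub, map_add, h9]
          abel
        rw [h10]
        congr 1
        refine Prod.ext ?_ ?_
        · simp only [Prod.fst_add, Prod.fst_sub]
          linarith
        · simp only [Prod.snd_add, Prod.snd_sub]
          linarith

/-- **the output for Theorem T** -/
theorem Star.rowVal [DecidableEq A] (hS : Star L e d l) (hinv : ∀ g, L g⁻¹ = L g) (h1 : L 1 = 0)
    (hd : Good d) (φ ψ : M →+ ℝ) (hφ : ∀ P : ℝ × ℝ, φ (e P) = P.1)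
    (hψ : ∀ P : ℝ × ℝ, ψ (e P) = P.2) :
    RowVal32 (fun g => φ (L g)) d d.lam ∧ RowVal32 (fun g => ψ (L g)) d l := by
  refine ⟨⟨by simp [h1], fun g => by simp [hinv], fun a => ?_, fun σ P Q h => ?_⟩,
    ⟨by simp [h1], fun g => by simp [hinv], fun a => ?_, fun σ P Q h => ?_⟩⟩
  · simp only [hS.lab hinv hd a, hφ]
  · have := hS.pre hd.pos h1 h
    simp only [this, hφ]
    rfl
  · simp only [hS.lab hinv hd a, hψ]
  · have := hS.pre hd.pos h1 h
    simp only [this, hψ]
    rfl

end Pool.Agent.Lib.MP_e3aa0a_gt.FVR
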