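import Pool.Agent.Lib.MP_e3aa0a_gt.FVR.StarRow21
import Pool.Agent.Lib.MP_e3aa0a_gt.FVL.Theta11

/-!
Project FVR (MP_e3aa0a_gt), helper21: the choice of the second lengths on a closed path (the theorem
of helper11 in the form of Theorem T).
-/

set_option autoImplicit false

namespace Pool.Agent.Lib.MP_e3aa0a_gt.FVR

open Pool.Agent.Lib.FVol
open Pool.Agent.Lib.MP_e3aa0a_gt.FVL (RowVal32 thx32 Theta32)

variable {A V H : Type*} [Group H]

theorem thx_eq (lam l : A → ℝ) (W : List (A × Bool)) : ∀ h k : ℝ,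
    thx32 lam l h k W = k * wl lam W + h * wl l W + wl lam W * wl l W -
      FVL.Theta11.ths lam l h W := by
  induction W with
  | nil => intro h k; simp [thx32, FVL.Theta11.ths]
  | cons z W ih =>
    intro h k
    rw [thx32, ih, FVL.Theta11.ths, wl_cons, wl_cons]
    ring

theorem wl_int (l : A → ℤ) (W : List (A × Bool)) :
    wl (fun a => (l a : ℝ)) W = ((FVL.Theta11.sm l W : ℤ) : ℝ) := by
  induction W with
  | nil => simp
  | cons z W ih => rw [wl_cons, ih, FVL.Theta11.sm_cons]; push_cast; ring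

theorem sm_eq_wl (m : A → ℝ) (W : List (A × Bool)) : FVL.Theta11.sm m W = wl m W := rfl

/-- **integral second lengths with `Θ ≠ 0`** -/
theorem exists_theta21 [DecidableEq A] [Nonempty A] {d d' : Dat A V H} {μ : ℝ} (hd : Good d)
    (hμ : 1 < μ) (hp : Relation.ReflTransGen Rv d d') (hrow : d'.row = d.row)
    (hlam : ∀ a, d'.lam a = d.lam a / μ) :
    ∃ l : A → ℤ, Bal (fun a => (l a : ℝ)) d ∧
      Theta32 d.lam (fun a => (l a : ℝ)) d.row ≠ 0 := by
  have hbal := bal_of_closed hμ hp hrow hlam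
  have hnc := nc_of_closed hd hμ hrow hlam Relation.ReflTransGen.refl hp
  obtain ⟨l, h1, h2⟩ := FVL.Theta11.theta11 hd (row_ne_nil hd hbal true)
    (by rw [sm_eq_wl, sm_eq_wl]; exact hbal)
    (fun x y e1 e2 => (not_single_of_closed hd hμ hp hlam x y e1 e2).elim)
    (fun P Q P' Q' e1 e2 n1 n2 n3 n4 h => by
      rw [sm_eq_wl, sm_eq_wl] at h
      rcases hnc P Q P' Q' e1 e2 h with ⟨h3, -⟩ | ⟨h3, -⟩
      · exact n1 h3
      · exact n2 h3)
  have hball : Bal (fun a => (l a : ℝ)) d := by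
    rw [Bal, wl_int, wl_int, h1]
  refine ⟨l, hball, fun h0 => h2 ?_⟩
  have hb1 : wl d.lam (d.row true) = wl d.lam (d.row false) := hbal
  have hb2 : wl (fun a => (l a : ℝ)) (d.row true) = wl (fun a => (l a : ℝ)) (d.row false) := hball
  rw [Theta32, thx_eq, thx_eq, hb1, hb2] at h0
  linarith

end Pool.Agent.Lib.MP_e3aa0a_gt.FVR
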