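import Pool.Agent.Lib.MP_e3aa0a_gt.FVR.Star21

/-!
Project FVR (MP_e3aa0a_gt), row STAR (helper21): on a closed path no vertex of the top row has the
height of a vertex of the bottom row, except for the two ends; consequences for `Star`.
-/

set_option autoImplicit false

namespace Pool.Agent.Lib.MP_e3aa0a_gt.FVR

open Pool.Agent.Lib.FVol

variable {A V H : Type*} [Group H]

/-- no vertex of the top row has the height of a vertex of the bottom row, except for the ends -/
def NC (d : Dat A V H) : Prop :=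
  ∀ P Q P' Q', d.row true = P ++ Q → d.row false = P' ++ Q' → wl d.lam P = wl d.lam P' →
    (P = [] ∧ P' = []) ∨ (Q = [] ∧ Q' = [])

/-- both rows have an interior vertex at the height `h` -/
def Coin (d : Dat A V H) (h : ℝ) : Prop :=
  0 < h ∧ ∀ σ, ∃ P Q, d.row σ = P ++ Q ∧ Q ≠ [] ∧ wl d.lam P = h

theorem exists_coin {d : Dat A V H} (hpos : ∀ a, 0 < d.lam a) (hbal : Bal d.lam d)
    (h : ¬ NC d) : ∃ h, Coin d h := by
  unfold NC at h
  push Not at h
  obtain ⟨P, Q, P', Q', h1, h2, h3, h4, h5⟩ := h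
  have hb : wl d.lam (d.row true) = wl d.lam (d.row false) := hbal
  rw [h1, h2, wl_append, wl_append] at hb
  have hP : P ≠ [] := by
    rintro rfl
    have h6 := h4 rfl
    have := wl_pos hpos h6
    rw [← h3, wl_nil] at this
    exact lt_irrefl _ this
  have hQ : Q ≠ [] := by
    rintro rfl
    have h6 := h5 rfl
    have := wl_pos hpos h6
    rw [wl_nil] at hb
    linarith
  have hQ' : Q' ≠ [] := by
    rintro rfl
    have := wl_pos hpos hQ
    rw [wl_nil] at hb
    linarith
  refine ⟨wl d.lam P, wl_pos hpos hP, fun σ => ?_⟩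
  cases σ
  · exact ⟨P', Q', h2, hQ', h3.symm⟩
  · exact ⟨P, Q, h1, hQ, rfl⟩

theorem Coin.lt {d : Dat A V H} {h : ℝ} (hpos : ∀ a, 0 < d.lam a) (hc : Coin d h) :
    h < wl d.lam (d.row true) := by
  obtain ⟨-, hc⟩ := hc
  obtain ⟨P, Q, h1, h2, h3⟩ := hc true
  rw [h1, wl_append, h3]
  linarith [wl_pos hpos h2]

section step

variable [DecidableEq A]

/-- the difference of the row sums does not change -/
theorem bal_step_iff {m m' : A → ℝ} {d : Dat A V H} {τ : Bool} {x y : A × Bool}
    {T B : List (A × Bool)} (hxy : y.1 ≠ x.1) (h1 : d.row τ = T ++ [x])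
    (h2 : d.row (!τ) = B ++ [y]) (e1 : ∀ a, a ≠ x.1 → m' a = m a)
    (e2 : m' x.1 = m x.1 - m y.1) (σ : Bool) :
    wl m' ((step d τ x y T B).row σ) = wl m (d.row σ) - m y.1 := by
  have k1 := step_row_self_append (B := B) hxy h1
  have k2 := step_row_other_append (T := T) hxy h2
  have k3 : ∀ W, wl m' (W.flatMap (sbs x y)) = wl m W := wl_sbs hxy e1 e2
  have key : (step d τ x y T B).row σ ++ [y] = (d.row σ).flatMap (sbs x y) := by
    cases σ <;> cases τ <;> assumption
  have := k3 (d.row σ)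
  rw [← key, wl_append, wl_cons, wl_nil, add_zero, e1 _ hxy] at this
  linarith

theorem Bal.step {m m' : A → ℝ} {d : Dat A V H} {τ : Bool} {x y : A × Bool}
    {T B : List (A × Bool)} (hb : Bal m d) (hxy : y.1 ≠ x.1) (h1 : d.row τ = T ++ [x])
    (h2 : d.row (!τ) = B ++ [y]) (e1 : ∀ a, a ≠ x.1 → m' a = m a)
    (e2 : m' x.1 = m x.1 - m y.1) : Bal m' (step d τ x y T B) := by
  rw [Bal, bal_step_iff hxy h1 h2 e1 e2, bal_step_iff hxy h1 h2 e1 e2, hb]

theorem Coin.rv {d d' : Dat A V H} {h : ℝ} (hd : Good d) (hbal : Bal d.lam d)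
    (hst : Rv d d') (hc : Coin d h) : Coin d' h := by
  obtain ⟨hh, hc⟩ := hc
  cases hst with
  | mk τ x y T B h1 h2 h3 =>
    have hxy : y.1 ≠ x.1 := ne_of_lam h3
    have k3 : ∀ W, wl (step d τ x y T B).lam (W.flatMap (sbs x y)) = wl d.lam W :=
      wl_sbs hxy (fun a ha => step_lam_of_ne ha) step_lam_self
    have hb := hbal.eq τ
    rw [h1, h2] at hb
    simp only [wl_append, wl_cons, wl_nil, add_zero] at hb
    refine ⟨hh, fun σ => ?_⟩
    -- prefix of `T`
    obtain ⟨P, Q, p1, p2, p3⟩ := hc τ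
    obtain ⟨Q1, q, rfl⟩ : ∃ Q1 q, Q = Q1 ++ [q] := by
      rcases List.eq_nil_or_concat Q with rfl | ⟨Q1, q, rfl⟩
      · exact absurd rfl p2
      · exact ⟨Q1, q, by simp⟩
    rw [h1, ← List.append_assoc] at p1
    obtain ⟨p4, rfl⟩ := snoc_inj p1
    have hT : h ≤ wl d.lam T := by
      rw [p4, wl_append, p3]
      linarith [wl_nonneg hd.pos Q1]
    obtain ⟨P', Q', p1', p2', p3'⟩ := hc (!τ)
    obtain ⟨Q1', q', rfl⟩ : ∃ Q1' q', Q' = Q1' ++ [q'] := by
      rcases List.eq_nil_or_concat Q' with rfl | ⟨Q1, q, rfl⟩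
      · exact absurd rfl p2'
      · exact ⟨Q1, q, by simp⟩
    rw [h2, ← List.append_assoc] at p1'
    obtain ⟨p4', rfl⟩ := snoc_inj p1'
    have hQ1' : Q1' ≠ [] := by
      rintro rfl
      rw [List.append_nil] at p4'
      rw [p4'] at hb
      linarith
    by_cases hσ : σ = τ
    · subst hσ
      refine ⟨P.flatMap (sbs x y), Q1.flatMap (sbs x y) ++ [x], ?_, by simp, by rw [k3, p3]⟩
      rw [step_row_self, p4]
      simp
    · have hσ' : σ = !τ := by cases σ <;> cases τ <;> simp_all
      subst hσ'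
      refine ⟨P'.flatMap (sbs x y), Q1'.flatMap (sbs x y), ?_, ?_, by rw [k3, p3']⟩
      · rw [step_row_other, p4']
        simp
      · intro h0
        have h9 := k3 Q1'
        rw [h0, wl_nil] at h9
        exact absurd h9 (wl_pos hd.pos hQ1').ne

theorem bal_path {d d' : Dat A V H} (hbal : Bal d.lam d) (hp : Relation.ReflTransGen Rv d d') :
    Bal d'.lam d' := by
  induction hp with
  | refl => exact hbal
  | tail _ hst ih =>
    cases hst with
    | mk τ x y T B h1 h2 h3 =>
      exact ih.step (ne_of_lam h3) h1 h2 (fun a ha => step_lam_of_ne ha) step_lam_self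

theorem Coin.path {d d' : Dat A V H} {h : ℝ} (hd : Good d) (hbal : Bal d.lam d)
    (hp : Relation.ReflTransGen Rv d d') (hc : Coin d h) : Coin d' h := by
  induction hp with
  | refl => exact hc
  | tail hp hst ih => exact ih.rv (path_good hp hd) (bal_path hbal hp) hst

/-- along a path the difference of the lengths of the two rows is constant -/
theorem diff_path {d d' : Dat A V H} (hp : Relation.ReflTransGen Rv d d') :
    wl d'.lam (d'.row true) - wl d'.lam (d'.row false) =
      wl d.lam (d.row true) - wl d.lam (d.row false) := by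
  induction hp with
  | refl => rfl
  | tail _ hst ih =>
    cases hst with
    | mk τ x y T B h1 h2 h3 =>
      rw [← ih, bal_step_iff (ne_of_lam h3) h1 h2 (fun a ha => step_lam_of_ne ha) step_lam_self,
        bal_step_iff (ne_of_lam h3) h1 h2 (fun a ha => step_lam_of_ne ha) step_lam_self]
      ring

theorem wl_scale {m m' : A → ℝ} {μ : ℝ} (h : ∀ a, m' a = m a / μ) (W : List (A × Bool)) :
    wl m' W = wl m W / μ := by
  induction W with
  | nil => simp
  | cons z W ih => rw [wl_cons, wl_cons, ih, h]; ring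

variable {d d' : Dat A V H} {μ : ℝ}

/-- a datum on a closed path has rows of equal length -/
theorem bal_of_closed (hμ : 1 < μ) (hp : Relation.ReflTransGen Rv d d') (hrow : d'.row = d.row)
    (hlam : ∀ a, d'.lam a = d.lam a / μ) : Bal d.lam d := by
  have h := diff_path hp
  rw [hrow, wl_scale hlam, wl_scale hlam] at h
  have h0 : (wl d.lam (d.row true) - wl d.lam (d.row false)) * (1 - μ) = 0 := by
    have hμ0 : μ ≠ 0 := by linarith
    field_simp at h
    linarith
  rcases mul_eq_zero.1 h0 with h1 | h1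
  · exact sub_eq_zero.1 h1
  · exfalso; linarith

/-- **no coincidences on a closed path** -/
theorem nc_of_closed (hd : Good d) (hμ : 1 < μ) (hrow : d'.row = d.row)
    (hlam : ∀ a, d'.lam a = d.lam a / μ) {e : Dat A V H} (h1 : Relation.ReflTransGen Rv d e)
    (h2 : Relation.ReflTransGen Rv e d') : NC e := by
  have hμ0 : 0 < μ := by linarith
  have hp := h1.trans h2
  have hbal := bal_of_closed hμ hp hrow hlam
  by_contra hcon
  obtain ⟨h, hc⟩ := exists_coin (path_good h1 hd).pos (bal_path hbal h1) hcon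
  have back : ∀ h, Coin d' h → Coin d (μ * h) := by
    rintro h ⟨c1, c2⟩
    refine ⟨mul_pos hμ0 c1, fun σ => ?_⟩
    obtain ⟨P, Q, p1, p2, p3⟩ := c2 σ
    refine ⟨P, Q, by rw [← hrow]; exact p1, p2, ?_⟩
    rw [← p3, wl_scale hlam]
    field_simp
  have hc0 : Coin d (μ * h) := back h (hc.path (path_good h1 hd) (bal_path hbal h1) h2)
  have hn : ∀ n : ℕ, Coin d (μ ^ n * (μ * h)) := by
    intro n
    induction n with
    | zero => simpa using hc0
    | succ n ih =>
      have := back _ (ih.path hd hbal hp)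
      rwa [← mul_assoc, ← pow_succ'] at this
  have hpos : 0 < μ * h := hc0.1
  obtain ⟨n, hn'⟩ := pow_unbounded_of_one_lt (wl d.lam (d.row true) / (μ * h)) hμ
  have h3 := (hn n).lt hd.pos
  rw [div_lt_iff₀ hpos] at hn'
  exact lt_asymm hn' h3

end step

/-! ### Zero prongs and one-letter rows -/

section zero

variable [DecidableEq A]

/-- the rows are `f ... f⁻¹` and `g ... g⁻¹` -/
def ZP (d : Dat A V H) : Prop :=
  ∃ (f g : A × Bool) (U W : List (A × Bool)), d.row true = f :: (U ++ [sinv f]) ∧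
    d.row false = g :: (W ++ [sinv g])

theorem ZP.row {d : Dat A V H} (h : ZP d) (τ : Bool) :
    ∃ (f g : A × Bool) (U W : List (A × Bool)), d.row τ = f :: (U ++ [sinv f]) ∧
      d.row (!τ) = g :: (W ++ [sinv g]) := by
  obtain ⟨f, g, U, W, h1, h2⟩ := h
  cases τ
  · exact ⟨g, f, W, U, h2, h1⟩
  · exact ⟨f, g, U, W, h1, h2⟩

/-- after a step from a zero prong the two rows have a common first letter -/
theorem ZP.coin {d d' : Dat A V H} (h : ZP d) (hst : Rv d d') : ¬ NC d' := by
  cases hst with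
  | mk τ x y T B h1 h2 h3 =>
    obtain ⟨f, g, U, W, e1, e2⟩ := h.row τ
    have hxy : y.1 ≠ x.1 := ne_of_lam h3
    rw [h1] at e1
    rw [h2] at e2
    have e1' : T ++ [x] = (f :: U) ++ [sinv f] := e1
    have e2' : B ++ [y] = (g :: W) ++ [sinv g] := e2
    obtain ⟨rfl, rfl⟩ := snoc_inj e1'
    obtain ⟨rfl, rfl⟩ := snoc_inj e2'
    have s1 : sbs (sinv f) (sinv g) f = [g, f] := by
      have := sbs_sinv (sinv f) (sinv g)
      rwa [sinv_sinv, sinv_sinv] at this
    have s2 : sbs (sinv f) (sinv g) g = [g] := sbs_of_ne hxy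
    have r1 : (step d τ (sinv f) (sinv g) (f :: U) (g :: W)).row τ =
        g :: (f :: (U.flatMap (sbs (sinv f) (sinv g)) ++ [sinv f])) := by
      rw [step_row_self, List.flatMap_cons, s1]
      rfl
    have r2 : (step d τ (sinv f) (sinv g) (f :: U) (g :: W)).row (!τ) =
        g :: (W.flatMap (sbs (sinv f) (sinv g))) := by
      rw [step_row_other, List.flatMap_cons, s2]
      rfl
    intro hnc
    cases τ
    · have := hnc [g] _ [g] _ r2 r1 rfl
      simp at this
    · have := hnc [g] _ [g] _ r1 r2 rfl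
      simp at this

theorem wl_lam_lt {d d' : Dat A V H} (hd : Good d) (hst : Rv d d') :
    wl d'.lam (d'.row true) < wl d.lam (d.row true) := by
  cases hst with
  | mk τ x y T B h1 h2 h3 =>
    rw [bal_step_iff (ne_of_lam h3) h1 h2 (fun a ha => step_lam_of_ne ha) step_lam_self]
    linarith [hd.pos y.1]

/-- no step is possible from two rows of one letter -/
theorem not_rv_of_single {d d' : Dat A V H} (hd : Good d) {x y : A × Bool}
    (h1 : d.row true = [x]) (h2 : d.row false = [y]) : ¬ Rv d d' := by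
  intro hst
  have hxy : y.1 = x.1 := by
    by_contra hne
    have := hd.sgn x
    have t := hd.two x
    rw [h1, h2] at this t
    have n1 : ¬ y = x := fun e => hne (by rw [e])
    have n2 : ¬ y = sinv x := fun e => hne (by rw [e]; rfl)
    have n3 : ¬ x = sinv x := (sinv_ne x).symm
    simp only [occ_cons, occ_nil, if_true, n1, n2, n3, if_false] at this t
    omega
  cases hst with
  | mk τ x' y' T B e1 e2 h3 =>
    cases τ
    · rw [h2] at e1
      rw [Bool.not_false, h1] at e2
      have p1 := snoc_inj (T := []) e1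
      have p2 := snoc_inj (T := []) e2
      rw [← p1.2, ← p2.2, hxy] at h3
      exact lt_irrefl _ h3
    · rw [h1] at e1
      rw [Bool.not_true, h2] at e2
      have p1 := snoc_inj (T := []) e1
      have p2 := snoc_inj (T := []) e2
      rw [← p1.2, ← p2.2, hxy] at h3
      exact lt_irrefl _ h3

variable {d d' : Dat A V H} {μ : ℝ}

theorem row_ne_nil [Nonempty A] (hd : Good d) (hbal : Bal d.lam d) (σ : Bool) : d.row σ ≠ [] := by
  intro h0
  obtain ⟨a⟩ := ‹Nonempty A›
  have hb := hbal.eq σ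
  rw [h0, wl_nil] at hb
  have h1 : d.row (!σ) = [] := by
    by_contra hne
    exact absurd hb (wl_pos hd.pos hne).ne
  have := hd.two' σ (a, true)
  rw [h0, h1] at this
  simp at this

/-- a closed path has a first step -/
theorem exists_step [Nonempty A] (hd : Good d) (hμ : 1 < μ)
    (hp : Relation.ReflTransGen Rv d d') (hlam : ∀ a, d'.lam a = d.lam a / μ) :
    ∃ d1, Rv d d1 ∧ Relation.ReflTransGen Rv d1 d' := by
  rcases hp.cases_head with rfl | ⟨d1, h1, h2⟩
  · exfalso
    obtain ⟨a⟩ := ‹Nonempty A›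
    have h1 := hlam a
    have h2 := hd.pos a
    have h3 : d.lam a / μ < d.lam a := div_lt_self h2 hμ
    linarith
  · exact ⟨d1, h1, h2⟩

/-- no zero prong on a closed path -/
theorem not_zp_of_closed [Nonempty A] (hd : Good d) (hμ : 1 < μ)
    (hp : Relation.ReflTransGen Rv d d') (hrow : d'.row = d.row)
    (hlam : ∀ a, d'.lam a = d.lam a / μ) : ¬ ZP d := by
  intro hz
  obtain ⟨d1, h1, h2⟩ := exists_step hd hμ hp hlam
  exact hz.coin h1 (nc_of_closed hd hμ hrow hlam (Relation.ReflTransGen.single h1) h2)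

/-- the rows of a closed path do not consist of one letter each -/
theorem not_single_of_closed [Nonempty A] (hd : Good d) (hμ : 1 < μ)
    (hp : Relation.ReflTransGen Rv d d') (hlam : ∀ a, d'.lam a = d.lam a / μ) (x y : A × Bool)
    (h1 : d.row true = [x]) (h2 : d.row false = [y]) : False := by
  obtain ⟨d1, h3, -⟩ := exists_step hd hμ hp hlam
  exact not_rv_of_single hd h1 h2 h3

end zero

/-! ### From `NC` to `NCx` -/

theorem prefix_eq_of_wl {m : A → ℝ} (hm : ∀ a, 0 < m a) {W P Q P' Q' : List (A × Bool)}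
    (h : W = P ++ Q) (h' : W = P' ++ Q') (hl : wl m P = wl m P') : P = P' := by
  rw [h] at h'
  rcases List.append_eq_append_iff.1 h' with ⟨R, h1, h2⟩ | ⟨R, h1, h2⟩
  · rw [h1, wl_append] at hl
    by_cases hR : R = []
    · rw [h1, hR, List.append_nil]
    · have := wl_pos hm hR
      linarith
  · rw [h1, wl_append] at hl
    by_cases hR : R = []
    · rw [h1, hR, List.append_nil]
    · have := wl_pos hm hR
      linarith

theorem NC.ncx {d : Dat A V H} {l : A → ℝ} (h : NC d) (hpos : ∀ a, 0 < d.lam a)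
    (hrel : wpr d.lab (d.row true) = wpr d.lab (d.row false)) (hball : Bal l d) : NCx d l := by
  intro σ σ' P Q P' Q' h1 h2 h3
  have key : ∀ P Q P' Q', d.row true = P ++ Q → d.row false = P' ++ Q' →
      wl d.lam P = wl d.lam P' → wpr d.lab P = wpr d.lab P' ∧ wl l P = wl l P' := by
    intro P Q P' Q' h1 h2 h3
    rcases h P Q P' Q' h1 h2 h3 with ⟨rfl, rfl⟩ | ⟨rfl, rfl⟩
    · exact ⟨rfl, rfl⟩
    · rw [List.append_nil] at h1 h2
      rw [← h1, ← h2]
      exact ⟨hrel, hball⟩
  cases σ <;> cases σ'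
  · rw [prefix_eq_of_wl hpos h1 h2 h3]
    exact ⟨rfl, rfl⟩
  · have := key _ _ _ _ h2 h1 h3.symm
    exact ⟨this.1.symm, this.2.symm⟩
  · exact key _ _ _ _ h1 h2 h3
  · rw [prefix_eq_of_wl hpos h1 h2 h3]
    exact ⟨rfl, rfl⟩

/-! ### Paths -/

section path

variable [DecidableEq A] {M : Type*} [AddCommGroup M] [LinearOrder M] {L : H → M}
  {e : ℝ × ℝ →+ M}

/-- **the property (*) along a path without coincidences** -/
theorem star_path (he : Emb e) (hU : UltM L) (hinv : ∀ g, L g⁻¹ = L g) {d d' : Dat A V H} {l : A → ℝ}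
    (hd : Good d) (hbal : Bal d.lam d) (hball : Bal l d) (hS : Star L e d l)
    (hp : Relation.ReflTransGen Rv d d')
    (hnc : ∀ d1, Relation.ReflTransGen Rv d d1 → Relation.ReflTransGen Rv d1 d' → NC d1) :
    ∃ l' : A → ℝ, Star L e d' l' ∧ Bal l' d' := by
  have key : ∀ d1, Relation.ReflTransGen Rv d d1 → Relation.ReflTransGen Rv d1 d' →
      ∃ l' : A → ℝ, Star L e d1 l' ∧ Bal l' d1 := by
    intro d1 hd1
    induction hd1 with
    | refl => exact fun _ => ⟨l, hS, hball⟩
    | @tail e1 e2 h1 hst ih =>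
      intro h2
      obtain ⟨l', hS', hb'⟩ := ih (Relation.ReflTransGen.head hst h2)
      have hg := path_good h1 hd
      have hg2 := hst.good hg
      have hbal1 := bal_path hbal h1
      have hnc2 := hnc e2 (h1.tail hst) h2
      cases hst with
      | mk τ x y T B e1' e2' e3 =>
        have hbl : Bal (stepl l' x y) (step e1 τ x y T B) :=
          hb'.step (ne_of_lam e3) e1' e2' (fun a ha => stepl_of_ne ha) stepl_self
        refine ⟨stepl l' x y, star_step he hU hinv hg.pos hg.rel hS' hbal1 hb' e1' e2' e3 ?_, hbl⟩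
        exact hnc2.ncx hg2.pos hg2.rel hbl
  exact key d' hp Relation.ReflTransGen.refl

/-- the property (*) for all data on a closed path -/
theorem star_closed (he : Emb e) (hU : UltM L) (hinv : ∀ g, L g⁻¹ = L g)
    {d d' d'' : Dat A V H} {l : A → ℝ}
    {μ : ℝ} (hd : Good d) (hμ : 1 < μ) (hball : Bal l d) (hS : Star L e d l)
    (hp : Relation.ReflTransGen Rv d d') (hp' : Relation.ReflTransGen Rv d' d'')
    (hrow : d''.row = d.row) (hlam : ∀ a, d''.lam a = d.lam a / μ) :
    ∃ l' : A → ℝ, Star L e d' l' ∧ Bal l' d' :=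
  star_path he hU hinv hd (bal_of_closed hμ (hp.trans hp') hrow hlam) hball hS hp
    fun _ h1 h2 => nc_of_closed hd hμ hrow hlam h1 (h2.trans hp')

end path

/-! ### What the property says about the letters and the prefixes -/

theorem occ_row [DecidableEq A] {d : Dat A V H} (hd : Good d) (a : A) :
    ∃ σ P Q s, d.row σ = P ++ (a, s) :: Q := by
  have h := hd.two (a, true)
  have h' : 0 < occ (a, true) (d.row true) ∨ 0 < occ (sinv (a, true)) (d.row true) ∨
      0 < occ (a, true) (d.row false) ∨ 0 < occ (sinv (a, true)) (d.row false) := by omega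
  have key : ∀ (z : A × Bool) W, 0 < occ z W → ∃ P Q, W = P ++ z :: Q := by
    intro z W hz
    have hmem : z ∈ W := by
      by_contra hn
      exact hz.ne' (occ_eq_zero_iff.2 hn)
    exact List.append_of_mem hmem
  rcases h' with h1 | h1 | h1 | h1
  · obtain ⟨P, Q, e⟩ := key _ _ h1
    exact ⟨true, P, Q, true, e⟩
  · obtain ⟨P, Q, e⟩ := key _ _ h1
    exact ⟨true, P, Q, false, e⟩
  · obtain ⟨P, Q, e⟩ := key _ _ h1
    exact ⟨false, P, Q, true, e⟩
  · obtain ⟨P, Q, e⟩ := key _ _ h1
    exact ⟨false, P, Q, false, e⟩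

theorem Star.lab [DecidableEq A] {M : Type*} [AddCommGroup M] [LinearOrder M] {L : H → M}
    {e : ℝ × ℝ →+ M} {d : Dat A V H} {l : A → ℝ} (hS : Star L e d l)
    (hinv : ∀ g, L g⁻¹ = L g) (hd : Good d) (a : A) : L (d.lab a) = e (d.lam a, l a) := by
  obtain ⟨σ, P, Q, s, h⟩ := occ_row hd a
  have := hS.letter hd.pos h
  cases s
  · simp only [slab, Bool.false_eq_true, if_false, hinv] at this
    exact this
  · simpa only [slab, if_true] using this

theorem Star.pre {M : Type*} [AddCommGroup M] [LinearOrder M] {L : H → M}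
    {e : ℝ × ℝ →+ M} {d : Dat A V H} {l : A → ℝ} (hS : Star L e d l)
    (hpos : ∀ a, 0 < d.lam a) (h1 : L 1 = 0) {σ : Bool} {P Q : List (A × Bool)}
    (h : d.row σ = P ++ Q) : L (wpr d.lab P) = e (wl d.lam P, wl l P) := by
  by_cases hP : P = []
  · subst hP
    rw [wpr_nil, wl_nil, wl_nil, h1]
    exact (map_zero e).symm
  · have := hS σ σ [] (P ++ Q) P Q (by rw [h]; rfl) h (by
      rw [wl_nil]; exact wl_pos hpos hP)
    simpa using this

end Pool.Agent.Lib.MP_e3aa0a_gt.FVR
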