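import Pool.Agent.Lib.FVol.Tw

/-!
Project FVR (MP_e3aa0a_gt), row STAR (helper21): the property `Star` of the polygon of a datum of the
Rauzy-Veech induction with labels in a group `H` with a length function `L` in an ordered group `M`, and its
behaviour under one step.
-/

set_option autoImplicit false

namespace Pool.Agent.Lib.MP_e3aa0a_gt.FVR

open Pool.Agent.Lib.FVol

/-! ### Sums over words -/

section wl

variable {A : Type*}

/-- the sum of `m` over the letters of a word -/
def wl (m : A → ℝ) (W : List (A × Bool)) : ℝ := (W.map fun z => m z.1).sum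

@[simp] theorem wl_nil (m : A → ℝ) : wl m [] = 0 := rfl
@[simp] theorem wl_cons (m : A → ℝ) (z : A × Bool) (W : List (A × Bool)) :
    wl m (z :: W) = m z.1 + wl m W := by simp [wl]
@[simp] theorem wl_append (m : A → ℝ) (W W' : List (A × Bool)) :
    wl m (W ++ W') = wl m W + wl m W' := by simp [wl]

theorem wl_nonneg {m : A → ℝ} (hm : ∀ a, 0 < m a) (W : List (A × Bool)) : 0 ≤ wl m W := by
  induction W with
  | nil => simp
  | cons z W ih =>
    rw [wl_cons]
    linarith [hm z.1]

theorem wl_pos {m : A → ℝ} (hm : ∀ a, 0 < m a) {W : List (A × Bool)} (hW : W ≠ []) :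
    0 < wl m W := by
  cases W with
  | nil => exact absurd rfl hW
  | cons z W =>
    rw [wl_cons]
    linarith [hm z.1, wl_nonneg hm W]

theorem wl_sbs [DecidableEq A] {m m' : A → ℝ} {x y : A × Bool} (hxy : y.1 ≠ x.1)
    (h1 : ∀ a, a ≠ x.1 → m' a = m a) (h2 : m' x.1 = m x.1 - m y.1) (W : List (A × Bool)) :
    wl m' (W.flatMap (sbs x y)) = wl m W := by
  induction W with
  | nil => rfl
  | cons z W ih =>
    rw [List.flatMap_cons, wl_append, ih, wl_cons]
    congr 1
    by_cases hzx : z = x
    · subst hzx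
      rw [sbs_self]
      simp [h1 _ hxy, h2]
    · by_cases hzx' : z = sinv x
      · subst hzx'
        rw [sbs_sinv]
        simp [h1 _ hxy, h2]
      · have hz1 : z.1 ≠ x.1 := by
          intro h
          rcases eq_or_sinv h with h | h
          · exact hzx h
          · exact hzx' h
        rw [sbs_of_ne hz1]
        simp [h1 _ hz1]

/-- prefixes of a substituted word -/
theorem prefix_sbs [DecidableEq A] {x y : A × Bool} (W : List (A × Bool)) :
    ∀ {P Q : List (A × Bool)}, W.flatMap (sbs x y) = P ++ Q →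
    (∃ W1 W2, W = W1 ++ W2 ∧ P = W1.flatMap (sbs x y)) ∨
    (∃ W1 W2, W = W1 ++ x :: W2 ∧ P = W1.flatMap (sbs x y) ++ [x]) ∨
    (∃ W1 W2, W = W1 ++ sinv x :: W2 ∧ P = W1.flatMap (sbs x y) ++ [sinv y]) := by
  induction W with
  | nil =>
    intro P Q h
    have : P = [] := by
      have h' : P ++ Q = [] := h.symm
      exact (List.append_eq_nil_iff.1 h').1
    exact Or.inl ⟨[], [], rfl, this⟩
  | cons z W ih =>
    intro P Q h
    rcases P with _ | ⟨p, P⟩
    · exact Or.inl ⟨[], z :: W, rfl, rfl⟩
    rw [List.flatMap_cons] at h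
    by_cases hzx : z = x
    · subst hzx
      rw [sbs_self] at h
      simp only [List.cons_append, List.nil_append, List.cons.injEq] at h
      obtain ⟨rfl, h⟩ := h
      rcases P with _ | ⟨p, P⟩
      · exact Or.inr (Or.inl ⟨[], W, rfl, rfl⟩)
      simp only [List.cons_append, List.cons.injEq] at h
      obtain ⟨rfl, h⟩ := h
      rcases ih h with ⟨W1, W2, e1, e2⟩ | ⟨W1, W2, e1, e2⟩ | ⟨W1, W2, e1, e2⟩
      · exact Or.inl ⟨z :: W1, W2, by rw [e1]; rfl, by
          rw [List.flatMap_cons, sbs_self, e2]; rfl⟩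
      · exact Or.inr (Or.inl ⟨z :: W1, W2, by rw [e1]; rfl, by
          rw [List.flatMap_cons, sbs_self, e2]; rfl⟩)
      · exact Or.inr (Or.inr ⟨z :: W1, W2, by rw [e1]; rfl, by
          rw [List.flatMap_cons, sbs_self, e2]; rfl⟩)
    · by_cases hzx' : z = sinv x
      · subst hzx'
        rw [sbs_sinv] at h
        simp only [List.cons_append, List.nil_append, List.cons.injEq] at h
        obtain ⟨rfl, h⟩ := h
        rcases P with _ | ⟨p, P⟩
        · exact Or.inr (Or.inr ⟨[], W, rfl, rfl⟩)
        simp only [List.cons_append, List.cons.injEq] at h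
        obtain ⟨rfl, h⟩ := h
        rcases ih h with ⟨W1, W2, e1, e2⟩ | ⟨W1, W2, e1, e2⟩ | ⟨W1, W2, e1, e2⟩
        · exact Or.inl ⟨sinv x :: W1, W2, by rw [e1]; rfl, by
            rw [List.flatMap_cons, sbs_sinv, e2]; rfl⟩
        · exact Or.inr (Or.inl ⟨sinv x :: W1, W2, by rw [e1]; rfl, by
            rw [List.flatMap_cons, sbs_sinv, e2]; rfl⟩)
        · exact Or.inr (Or.inr ⟨sinv x :: W1, W2, by rw [e1]; rfl, by
            rw [List.flatMap_cons, sbs_sinv, e2]; rfl⟩)
      · have h9 : sbs x y z = [z] := by simp [sbs, hzx, hzx']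
        rw [h9] at h
        simp only [List.cons_append, List.nil_append, List.cons.injEq] at h
        obtain ⟨rfl, h⟩ := h
        rcases ih h with ⟨W1, W2, e1, e2⟩ | ⟨W1, W2, e1, e2⟩ | ⟨W1, W2, e1, e2⟩
        · exact Or.inl ⟨z :: W1, W2, by rw [e1]; rfl, by
            rw [List.flatMap_cons, h9, e2]; rfl⟩
        · exact Or.inr (Or.inl ⟨z :: W1, W2, by rw [e1]; rfl, by
            rw [List.flatMap_cons, h9, e2]; rfl⟩)
        · exact Or.inr (Or.inr ⟨z :: W1, W2, by rw [e1]; rfl, by
            rw [List.flatMap_cons, h9, e2]; rfl⟩)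

end wl

/-! ### Ultrametric length functions -/

section ultra

variable {H M : Type*} [Group H] [AddCommGroup M] [LinearOrder M]

/-- the three sums of opposite edges of a tetrahedron: if the first is smaller than the second (and
their four lengths are not zero) then the second is equal to the third -/
def UltM (L : H → M) : Prop :=
  ∀ a b c : H, L a ≠ 0 → L c ≠ 0 → L (a * b) ≠ 0 → L (b * c) ≠ 0 →
    L a + L c < L (a * b) + L (b * c) → L (a * b * c) + L b = L (a * b) + L (b * c)

/-- the length of the segment from `p` to `q` -/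
def dd (L : H → M) (p q : H) : M := L (p⁻¹ * q)

variable {L : H → M}

theorem dd_comm (hinv : ∀ g, L g⁻¹ = L g) (p q : H) : dd L p q = dd L q p := by
  rw [dd, dd, ← hinv]
  congr 1
  group

theorem dd_mul_left (g p q : H) : dd L (g * p) (g * q) = dd L p q := by
  rw [dd, dd]
  congr 1
  group

theorem dd_mul_right (p g : H) : dd L p (p * g) = L g := by
  rw [dd]
  congr 1
  group

theorem UltM.dd (hU : UltM L) (p q r s : H) (n1 : FVR.dd L p q ≠ 0) (n2 : FVR.dd L r s ≠ 0)
    (n3 : FVR.dd L p r ≠ 0) (n4 : FVR.dd L q s ≠ 0)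
    (h : FVR.dd L p q + FVR.dd L r s < FVR.dd L p r + FVR.dd L q s) :
    FVR.dd L p r + FVR.dd L q s = FVR.dd L p s + FVR.dd L q r := by
  have h1 := hU (p⁻¹ * q) (q⁻¹ * r) (r⁻¹ * s)
  have e1 : p⁻¹ * q * (q⁻¹ * r) = p⁻¹ * r := by group
  have e2 : q⁻¹ * r * (r⁻¹ * s) = q⁻¹ * s := by group
  have e3 : p⁻¹ * r * (r⁻¹ * s) = p⁻¹ * s := by group
  rw [e1, e2, e3] at h1
  exact (h1 n1 n2 n3 n4 h).symm

/-- the embedding of the positions is monotone in the first coordinate -/
def Emb (e : ℝ × ℝ →+ M) : Prop := ∀ P Q : ℝ × ℝ, P.1 < Q.1 → e P < e Q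

theorem Emb.ne_zero {e : ℝ × ℝ →+ M} (he : Emb e) {P : ℝ × ℝ} (h : 0 < P.1) : e P ≠ 0 := by
  have := he 0 P h
  rw [map_zero] at this
  exact this.ne'

/-- the relation between two points with the positions `P`, `Q` -/
def Rel (L : H → M) (e : ℝ × ℝ →+ M) (p q : H) (P Q : ℝ × ℝ) : Prop :=
  (P.1 < Q.1 → dd L p q = e (Q - P)) ∧ (Q.1 < P.1 → dd L p q = e (P - Q))

theorem Rel.symm {e : ℝ × ℝ →+ M} (hinv : ∀ g, L g⁻¹ = L g) {p q : H} {P Q : ℝ × ℝ}
    (h : Rel L e p q P Q) : Rel L e q p Q P :=
  ⟨fun h1 => by rw [dd_comm hinv]; exact h.2 h1, fun h1 => by rw [dd_comm hinv]; exact h.1 h1⟩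

/-- insertion of a point `p` on the segment from `c` to `d` -/
theorem rel_insert {e : ℝ × ℝ →+ M} (he : Emb e) (hU : UltM L) (hinv : ∀ g, L g⁻¹ = L g)
    {c d p i : H} {C D E I : ℝ × ℝ} (h1 : C.1 < E.1) (h2 : E.1 < D.1)
    (hcd : dd L c d = e (D - C)) (hce : dd L c p = e (E - C))
    (hed : dd L p d = e (D - E)) (hic : Rel L e i c I C) (hid : Rel L e i d I D)
    (hc : I.1 = C.1 → i = c ∧ I = C) (hd : I.1 = D.1 → i = d ∧ I = D) : Rel L e i p I E := by
  have nde : dd L d p ≠ 0 := by
    rw [dd_comm hinv, hed]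
    exact he.ne_zero (by simp only [Prod.fst_sub]; linarith)
  have nce : dd L c p ≠ 0 := by
    rw [hce]
    exact he.ne_zero (by simp only [Prod.fst_sub]; linarith)
  have key1 : dd L i c ≠ 0 → dd L i d ≠ 0 → dd L i c + dd L d p < dd L i d + dd L c p →
      dd L i d + dd L c p = dd L i p + dd L c d := fun n1 n2 h =>
    hU.dd i c d p n1 nde n2 nce h
  have key2 : dd L i c ≠ 0 → dd L i d ≠ 0 → dd L i d + dd L c p < dd L i c + dd L d p →
      dd L i c + dd L d p = dd L i p + dd L d c := fun n1 n2 h =>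
    hU.dd i d c p n2 nce n1 nde h
  rw [dd_comm hinv d p, hed, hce] at key1
  rw [dd_comm hinv d p, hed, hce, dd_comm hinv d c] at key2
  rw [hcd] at key1 key2
  have fin : ∀ X Y : ℝ × ℝ, e X + e Y = dd L i p + e (D - C) → dd L i p = e (X + Y - (D - C)) :=
    fun X Y h => by rw [map_sub, map_add, h]; abel
  rcases lt_trichotomy I.1 C.1 with ha | ha | ha
  · -- left of `c`
    refine ⟨fun _ => ?_, fun h => absurd h (by linarith)⟩
    have e1 := hic.1 ha
    have e2 := hid.1 (by linarith)
    rw [e1, e2] at key1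
    have := key1 (he.ne_zero (by simp only [Prod.fst_sub]; linarith))
      (he.ne_zero (by simp only [Prod.fst_sub]; linarith)) (by
        rw [← map_add, ← map_add]
        exact he _ _ (by simp only [Prod.fst_add, Prod.fst_sub]; linarith))
    rw [fin _ _ this]
    congr 1
    abel
  · obtain ⟨rfl, rfl⟩ := hc ha
    exact ⟨fun _ => hce, fun h => absurd h (by linarith)⟩
  · rcases lt_trichotomy I.1 E.1 with hb | hb | hb
    · refine ⟨fun _ => ?_, fun h => absurd h (by linarith)⟩
      have e1 := hic.2 ha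
      have e2 := hid.1 (by linarith)
      rw [e1, e2] at key1
      have := key1 (he.ne_zero (by simp only [Prod.fst_sub]; linarith))
        (he.ne_zero (by simp only [Prod.fst_sub]; linarith)) (by
          rw [← map_add, ← map_add]
          exact he _ _ (by simp only [Prod.fst_add, Prod.fst_sub]; linarith))
      rw [fin _ _ this]
      congr 1
      abel
    · exact ⟨fun h => absurd h (by linarith), fun h => absurd h (by linarith)⟩
    · refine ⟨fun h => absurd h (by linarith), fun _ => ?_⟩
      rcases lt_trichotomy I.1 D.1 with hg | hg | hg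
      · have e1 := hic.2 ha
        have e2 := hid.1 hg
        rw [e1, e2] at key2
        have := key2 (he.ne_zero (by simp only [Prod.fst_sub]; linarith))
          (he.ne_zero (by simp only [Prod.fst_sub]; linarith)) (by
            rw [← map_add, ← map_add]
            exact he _ _ (by simp only [Prod.fst_add, Prod.fst_sub]; linarith))
        rw [fin _ _ this]
        congr 1
        abel
      · obtain ⟨rfl, rfl⟩ := hd hg
        rw [dd_comm hinv]
        exact hed
      · have e1 := hic.2 ha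
        have e2 := hid.2 hg
        rw [e1, e2] at key2
        have := key2 (he.ne_zero (by simp only [Prod.fst_sub]; linarith))
          (he.ne_zero (by simp only [Prod.fst_sub]; linarith)) (by
            rw [← map_add, ← map_add]
            exact he _ _ (by simp only [Prod.fst_add, Prod.fst_sub]; linarith))
        rw [fin _ _ this]
        congr 1
        abel

end ultra

/-! ### The property `Star` -/

section star

variable {A V H M : Type*} [Group H] [AddCommGroup M] [LinearOrder M]

/-- `p` is the vertex of the polygon at the position `E` -/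
def Vtx (d : Dat A V H) (l : A → ℝ) (p : H) (E : ℝ × ℝ) : Prop :=
  ∃ σ P Q, d.row σ = P ++ Q ∧ p = wpr d.lab P ∧ E = (wl d.lam P, wl l P)

/-- **the property (*)**: the length of the segment between any two vertices of the polygon is the
difference of their positions -/
def Star (L : H → M) (e : ℝ × ℝ →+ M) (d : Dat A V H) (l : A → ℝ) : Prop :=
  ∀ σ σ' P Q P' Q', d.row σ = P ++ Q → d.row σ' = P' ++ Q' → wl d.lam P < wl d.lam P' →
    L ((wpr d.lab P)⁻¹ * wpr d.lab P') = e (wl d.lam P' - wl d.lam P, wl l P' - wl l P)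

/-- two vertices of the same height are equal, and so are their second coordinates -/
def NCx (d : Dat A V H) (l : A → ℝ) : Prop :=
  ∀ σ σ' P Q P' Q', d.row σ = P ++ Q → d.row σ' = P' ++ Q' → wl d.lam P = wl d.lam P' →
    wpr d.lab P = wpr d.lab P' ∧ wl l P = wl l P'

/-- both rows have the same sum -/
def Bal (m : A → ℝ) (d : Dat A V H) : Prop := wl m (d.row true) = wl m (d.row false)

theorem Bal.eq {m : A → ℝ} {d : Dat A V H} (h : Bal m d) (τ : Bool) :
    wl m (d.row τ) = wl m (d.row (!τ)) := by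
  cases τ
  · exact h.symm
  · exact h

variable {L : H → M} {e : ℝ × ℝ →+ M} {d : Dat A V H} {l : A → ℝ}

theorem star_iff : Star L e d l ↔ ∀ p f E F, Vtx d l p E → Vtx d l f F → E.1 < F.1 →
    dd L p f = e (F - E) := by
  constructor
  · rintro h p f E F ⟨σ, P, Q, h1, rfl, rfl⟩ ⟨σ', P', Q', h1', rfl, rfl⟩ hlt
    exact h σ σ' P Q P' Q' h1 h1' hlt
  · intro h σ σ' P Q P' Q' h1 h1' hlt
    exact h _ _ _ _ ⟨σ, P, Q, h1, rfl, rfl⟩ ⟨σ', P', Q', h1', rfl, rfl⟩ hlt

theorem Star.rel (h : Star L e d l) (hinv : ∀ g, L g⁻¹ = L g) {p f : H} {E F : ℝ × ℝ}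
    (hp : Vtx d l p E) (hf : Vtx d l f F) : Rel L e p f E F :=
  ⟨fun h1 => star_iff.1 h p f E F hp hf h1, fun h1 => by
    rw [dd_comm hinv]; exact star_iff.1 h f p F E hf hp h1⟩

theorem NCx.vtx (h : NCx d l) {p f : H} {E F : ℝ × ℝ}
    (hp : Vtx d l p E) (hf : Vtx d l f F) (hEF : E.1 = F.1) : p = f ∧ E = F := by
  obtain ⟨σ, P, Q, h1, rfl, rfl⟩ := hp
  obtain ⟨σ', P', Q', h1', rfl, rfl⟩ := hf
  have := h σ σ' P Q P' Q' h1 h1' hEF
  exact ⟨this.1, Prod.ext hEF this.2⟩

theorem Star.letter (h : Star L e d l) (hpos : ∀ a, 0 < d.lam a) {σ : Bool}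
    {P Q : List (A × Bool)} {z : A × Bool} (hr : d.row σ = P ++ z :: Q) :
    L (slab d.lab z) = e (d.lam z.1, l z.1) := by
  have := h σ σ P (z :: Q) (P ++ [z]) Q hr (by rw [hr]; simp) (by
    simp only [wl_append, wl_cons, wl_nil]; linarith [hpos z.1])
  rw [wpr_append, wpr_cons, wpr_nil, mul_one, inv_mul_cancel_left] at this
  rw [this]
  simp

/-! ### One step -/

variable [DecidableEq A]

/-- the new second lengths -/
def stepl (l : A → ℝ) (x y : A × Bool) : A → ℝ := Function.update l x.1 (l x.1 - l y.1)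

theorem stepl_of_ne {x y : A × Bool} {a : A} (h : a ≠ x.1) : stepl l x y a = l a := by
  simp [stepl, Function.update_of_ne h]

theorem stepl_self {x y : A × Bool} : stepl l x y x.1 = l x.1 - l y.1 := by simp [stepl]

variable {τ : Bool} {x y : A × Bool} {T B : List (A × Bool)}

theorem step_row_cases (σ : Bool) : ((step d τ x y T B).row σ = T.flatMap (sbs x y) ++ [x] ∧
    d.row σ = d.row τ) ∨ (step d τ x y T B).row σ = B.flatMap (sbs x y) ∧
    d.row σ = d.row (!τ) := by
  by_cases h : σ = τ
  · subst h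
    exact Or.inl ⟨step_row_self, rfl⟩
  · have h' : σ = !τ := by cases σ <;> cases τ <;> simp_all
    subst h'
    exact Or.inr ⟨step_row_other, rfl⟩

/-- **one step preserves the property (*)** -/
theorem star_step (he : Emb e) (hU : UltM L) (hinv : ∀ g, L g⁻¹ = L g)
    (hpos : ∀ a, 0 < d.lam a)
    (hrel : wpr d.lab (d.row true) = wpr d.lab (d.row false)) (hS : Star L e d l)
    (hbal : Bal d.lam d) (hball : Bal l d)
    (h1 : d.row τ = T ++ [x]) (h2 : d.row (!τ) = B ++ [y]) (h3 : d.lam y.1 < d.lam x.1)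
    (hnc : NCx (step d τ x y T B) (stepl l x y)) :
    Star L e (step d τ x y T B) (stepl l x y) := by
  have hxy : y.1 ≠ x.1 := by
    intro e
    rw [e] at h3
    exact lt_irrefl _ h3
  set d' := step d τ x y T B with hd'
  set l' := stepl l x y with hl'
  -- transfer of words
  have wp : ∀ W, wpr d'.lab (W.flatMap (sbs x y)) = wpr d.lab W := fun W =>
    wpr_sbs hxy (fun a ha => step_lab_of_ne ha) step_slab_mul W
  have wlam : ∀ W, wl d'.lam (W.flatMap (sbs x y)) = wl d.lam W := fun W =>
    wl_sbs hxy (fun a ha => step_lam_of_ne ha) step_lam_self W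
  have wll : ∀ W, wl l' (W.flatMap (sbs x y)) = wl l W := fun W =>
    wl_sbs hxy (fun a ha => stepl_of_ne ha) stepl_self W
  have hr : wpr d.lab (d.row τ) = wpr d.lab (d.row (!τ)) := by
    cases τ
    · exact hrel.symm
    · exact hrel
  -- the last vertex
  have hend : wpr d'.lab (T.flatMap (sbs x y) ++ [x]) = wpr d.lab B ∧
      wl d'.lam (T.flatMap (sbs x y) ++ [x]) = wl d.lam B ∧
      wl l' (T.flatMap (sbs x y) ++ [x]) = wl l B := by
    have a1 := hbal.eq τ
    have a2 := hball.eq τ
    rw [h1, h2] at a1 a2 hr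
    simp only [wl_append, wl_cons, wl_nil, add_zero] at a1 a2
    refine ⟨?_, ?_, ?_⟩
    · rw [wpr_append, wp, wpr_cons, wpr_nil, mul_one, step_slab_self]
      simp only [wpr_append, wpr_cons, wpr_nil, mul_one] at hr
      rw [← mul_assoc, hr]
      group
    · rw [wl_append, wlam, wl_cons, wl_nil, step_lam_self]
      linarith
    · rw [wl_append, wll, wl_cons, wl_nil, hl', stepl_self]
      linarith
  -- the values of the letters
  have Ly : L (slab d.lab y) = e (d.lam y.1, l y.1) := hS.letter hpos h2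
  have hTlt : wl d.lam T < wl d.lam B := by
    have a1 := hbal.eq τ
    rw [h1, h2] at a1
    simp only [wl_append, wl_cons, wl_nil, add_zero] at a1
    linarith
  have Lx : L (slab d'.lab x) = e (d.lam x.1 - d.lam y.1, l x.1 - l y.1) := by
    have := hS τ (!τ) T [x] B [y] h1 h2 hTlt
    have e' : (wpr d.lab T)⁻¹ * wpr d.lab B = slab d'.lab x := by
      rw [← hend.1, wpr_append, wp]
      simp
    rw [e'] at this
    rw [this]
    congr 1
    have a1 := hbal.eq τ
    have a2 := hball.eq τ
    rw [h1, h2] at a1 a2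
    simp only [wl_append, wl_cons, wl_nil, add_zero] at a1 a2
    exact Prod.ext (by simp only; linarith) (by simp only; linarith)
  -- an old vertex
  have hold : ∀ W1 W2, (W1 ++ W2 = T ∨ W1 ++ W2 = B) →
      Vtx d l (wpr d.lab W1) (wl d.lam W1, wl l W1) ∧
      Vtx d' l' (wpr d.lab W1) (wl d.lam W1, wl l W1) := by
    rintro W1 W2 (h | h)
    · refine ⟨⟨τ, W1, W2 ++ [x], by rw [h1, ← h]; simp, rfl, rfl⟩,
        ⟨τ, W1.flatMap (sbs x y), W2.flatMap (sbs x y) ++ [x], ?_, (wp W1).symm, ?_⟩⟩
      · rw [hd', step_row_self, ← h]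
        simp
      · rw [wlam, wll]
    · refine ⟨⟨!τ, W1, W2 ++ [y], by rw [h2, ← h]; simp, rfl, rfl⟩,
        ⟨!τ, W1.flatMap (sbs x y), W2.flatMap (sbs x y), ?_, (wp W1).symm, ?_⟩⟩
      · rw [hd', step_row_other, ← h]
        simp
      · rw [wlam, wll]
  -- classification of the vertices
  have hcl : ∀ p E, Vtx d' l' p E → Vtx d l p E ∨ ∃ c f C F, Vtx d l c C ∧ Vtx d' l' c C ∧
      Vtx d l f F ∧ Vtx d' l' f F ∧ C.1 < E.1 ∧ E.1 < F.1 ∧ dd L c f = e (F - C) ∧
      dd L c p = e (E - C) ∧ dd L p f = e (F - E) := by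
    rintro p E ⟨σ, P, Q, hrow, rfl, rfl⟩
    -- the case of a prefix of `T` or `B`
    have main : ∀ W, (W = T ∨ W = B) → ∀ Q', W.flatMap (sbs x y) = P ++ Q' →
        Vtx d l (wpr d'.lab P) (wl d'.lam P, wl l' P) ∨ ∃ c f C F, Vtx d l c C ∧ Vtx d' l' c C ∧
        Vtx d l f F ∧ Vtx d' l' f F ∧ C.1 < (wl d'.lam P, wl l' P).1 ∧
        (wl d'.lam P, wl l' P).1 < F.1 ∧ dd L c f = e (F - C) ∧
        dd L c (wpr d'.lab P) = e ((wl d'.lam P, wl l' P) - C) ∧
        dd L (wpr d'.lab P) f = e (F - (wl d'.lam P, wl l' P)) := by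
      intro W hW Q' hQ'
      rcases prefix_sbs W hQ' with ⟨W1, W2, e1, rfl⟩ | ⟨W1, W2, e1, rfl⟩ | ⟨W1, W2, e1, rfl⟩
      · left
        rw [wp, wlam, wll]
        refine (hold W1 W2 ?_).1
        rw [← e1]
        exact hW
      · right
        have v1 := hold W1 (x :: W2) (by rw [← e1]; exact hW)
        have v2 := hold (W1 ++ [x]) W2 (by
          have : W1 ++ [x] ++ W2 = W := by rw [e1]; simp
          rw [this]; exact hW)
        refine ⟨_, _, _, _, v1.1, v1.2, v2.1, v2.2, ?_, ?_, ?_, ?_, ?_⟩
        · simp only [wl_append, wlam, wl_cons, wl_nil, step_lam_self, hd']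
          have : wl (step d τ x y T B).lam (W1.flatMap (sbs x y)) = wl d.lam W1 := wlam W1
          linarith
        · have : wl (step d τ x y T B).lam (W1.flatMap (sbs x y)) = wl d.lam W1 := wlam W1
          simp only [wl_append, wl_cons, wl_nil, step_lam_self, hd']
          linarith [hpos y.1]
        · exact star_iff.1 hS _ _ _ _ v1.1 v2.1 (by
            simp only [wl_append, wl_cons, wl_nil]; linarith [hpos x.1])
        · rw [wpr_append, wp, wpr_cons, wpr_nil, mul_one, dd_mul_right, Lx]
          have e3 : wl d'.lam (W1.flatMap (sbs x y) ++ [x]) = wl d.lam W1 + (d.lam x.1 - d.lam y.1) := by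
            rw [wl_append, wlam, wl_cons, wl_nil, hd', step_lam_self, add_zero]
          have e4 : wl l' (W1.flatMap (sbs x y) ++ [x]) = wl l W1 + (l x.1 - l y.1) := by
            rw [wl_append, wll, wl_cons, wl_nil, hl', stepl_self, add_zero]
          rw [e3, e4]
          congr 1
          exact Prod.ext (by simp) (by simp)
        · have e5 : wpr d.lab (W1 ++ [x]) = wpr d'.lab (W1.flatMap (sbs x y) ++ [x]) *
              slab d.lab y := by
            rw [wpr_append, wpr_append, wp, wpr_cons, wpr_nil, mul_one, wpr_cons, wpr_nil, mul_one,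
              mul_assoc, step_slab_mul]
          rw [e5, dd_mul_right, Ly]
          have e3 : wl d'.lam (W1.flatMap (sbs x y) ++ [x]) = wl d.lam W1 + (d.lam x.1 - d.lam y.1) := by
            rw [wl_append, wlam, wl_cons, wl_nil, hd', step_lam_self, add_zero]
          have e4 : wl l' (W1.flatMap (sbs x y) ++ [x]) = wl l W1 + (l x.1 - l y.1) := by
            rw [wl_append, wll, wl_cons, wl_nil, hl', stepl_self, add_zero]
          rw [e3, e4]
          congr 1
          refine Prod.ext ?_ ?_
          · simp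
          · simp
      · right
        have v1 := hold W1 (sinv x :: W2) (by rw [← e1]; exact hW)
        have v2 := hold (W1 ++ [sinv x]) W2 (by
          have : W1 ++ [sinv x] ++ W2 = W := by rw [e1]; simp
          rw [this]; exact hW)
        have e3 : wl d'.lam (W1.flatMap (sbs x y) ++ [sinv y]) = wl d.lam W1 + d.lam y.1 := by
          rw [wl_append, wlam, wl_cons, wl_nil, add_zero, sinv_fst, hd', step_lam_of_ne hxy]
        have e4 : wl l' (W1.flatMap (sbs x y) ++ [sinv y]) = wl l W1 + l y.1 := by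
          rw [wl_append, wll, wl_cons, wl_nil, add_zero, sinv_fst, hl', stepl_of_ne hxy]
        have ey : slab d'.lab (sinv y) = (slab d.lab y)⁻¹ := by
          rw [slab_sinv]
          congr 1
          exact slab_congr (step_lab_of_ne hxy)
        have e6 : wpr d'.lab (W1.flatMap (sbs x y) ++ [sinv y]) =
            wpr d.lab W1 * (slab d.lab y)⁻¹ := by
          rw [wpr_append, wp, wpr_cons, wpr_nil, mul_one, ey]
        refine ⟨_, _, _, _, v1.1, v1.2, v2.1, v2.2, ?_, ?_, ?_, ?_, ?_⟩
        · rw [e3]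
          simp only
          linarith [hpos y.1]
        · rw [e3]
          simp only [wl_append, wl_cons, wl_nil, sinv_fst]
          linarith
        · exact star_iff.1 hS _ _ _ _ v1.1 v2.1 (by
            simp only [wl_append, wl_cons, wl_nil, sinv_fst]; linarith [hpos x.1])
        · rw [e6, dd_mul_right, hinv, Ly, e3, e4]
          congr 1
          exact Prod.ext (by simp) (by simp)
        · have e5 : wpr d.lab (W1 ++ [sinv x]) = wpr d.lab W1 * (slab d.lab y)⁻¹ *
              (slab d'.lab x)⁻¹ := by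
            rw [wpr_append, wpr_cons, wpr_nil, mul_one, slab_sinv, mul_assoc, ← mul_inv_rev,
              step_slab_mul]
          rw [e5, e6, dd_mul_right, hinv, Lx, e3, e4]
          congr 1
          refine Prod.ext ?_ ?_
          · simp only [wl_append, wl_cons, wl_nil, sinv_fst, Prod.fst_sub]
            ring
          · simp only [wl_append, wl_cons, wl_nil, sinv_fst, Prod.snd_sub]
            ring
    rcases step_row_cases (d := d) (τ := τ) (x := x) (y := y) (T := T) (B := B) σ with
      ⟨hs, -⟩ | ⟨hs, -⟩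
    · rw [← hd', hrow] at hs
      rcases List.eq_nil_or_concat Q with rfl | ⟨Q1, q, rfl⟩
      · left
        rw [List.append_nil] at hs
        rw [hs, hend.1, hend.2.1, hend.2.2]
        exact (hold B [] (by simp)).1
      · rw [List.concat_eq_append, ← List.append_assoc] at hs
        obtain ⟨hs1, -⟩ := snoc_inj hs
        exact main T (Or.inl rfl) Q1 hs1.symm
    · rw [← hd', hrow] at hs
      exact main B (Or.inr rfl) Q hs.symm
  -- old - new
  have hon : ∀ i I p E, Vtx d l i I → Vtx d' l' i I → Vtx d' l' p E → Rel L e i p I E := by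
    intro i I p E hi hi' hp
    rcases hcl p E hp with hp | ⟨c, f, C, F, c1, c2, f1, f2, g1, g2, g3, g4, g5⟩
    · exact hS.rel hinv hi hp
    · exact rel_insert he hU hinv g1 g2 g3 g4 g5 (hS.rel hinv hi c1) (hS.rel hinv hi f1)
        (fun h => hnc.vtx hi' c2 h) (fun h => hnc.vtx hi' f2 h)
  rw [star_iff]
  intro i p I E hi hp hlt
  have hrel' : Rel L e i p I E := by
    rcases hcl p E hp with hp' | ⟨c, f, C, F, c1, c2, f1, f2, g1, g2, g3, g4, g5⟩
    · exact (hon p E i I hp' hp hi).symm hinv
    · exact rel_insert he hU hinv g1 g2 g3 g4 g5 ((hon c C i I c1 c2 hi).symm hinv)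
        ((hon f F i I f1 f2 hi).symm hinv) (fun h => hnc.vtx hi c2 h) (fun h => hnc.vtx hi f2 h)
  exact hrel'.1 hlt

end star

end Pool.Agent.Lib.MP_e3aa0a_gt.FVR
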